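import Pool.Agent.Helper57.KE.St2

/-! Project KF, module GRZ: the growth of the sums at the endpoint, from the monotonicity of `Psi`. -/

set_option autoImplicit false

open scoped BigOperators
open Finset

namespace Pool.Agent.Helper37.KE

open Pool.Agent.Helper57.KE Pool.Agent.Helper57.KR Pool.Agent.Helper65.RG

private theorem ss_bounds {c : ℝ} (hc : 1 < c) : 0 < ss c ∧ ss c < 1 := by
  have h1 : 1 < c ^ 2 := by nlinarith
  have h2 : 1 / c ^ 2 < 1 := by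
    rw [div_lt_one (by positivity)]
    exact h1
  have h3 : 0 < 1 / c ^ 2 := by positivity
  unfold ss
  constructor
  · exact Real.sqrt_pos.2 (by linarith)
  · rw [Real.sqrt_lt' one_pos]
    linarith

private theorem pp_bounds {c : ℝ} (hc : 1 < c) : 0 < pp c ∧ pp c < 1 := by
  obtain ⟨h1, h2⟩ := ss_bounds hc
  unfold pp
  constructor
  · exact div_pos (by linarith) (by linarith)
  · rw [div_lt_one (by linarith)]
    linarith

private theorem mono_step (hD : StDER) (v : ℕ → ℝ) (p ω ω' D σ1 σ0 : ℝ) (m : ℕ) (hω : 0 < ω)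
    (hD0 : 0 ≤ D) (h1 : 0 < σ1) (h10 : σ1 ≤ σ0)
    (hd : ∀ σ, σ1 ≤ σ → σ ≤ σ0 → -(σ ^ (ω - 1) * D) ≤ dPsi v p ω ω' m σ) :
    Psi v p ω ω' m σ1 ≤ Psi v p ω ω' m σ0 + D * σ0 ^ ω / ω := by
  have key : ∀ σ : ℝ, 0 < σ → HasDerivAt (fun σ => Psi v p ω ω' m σ + D / ω * σ ^ ω)
      (dPsi v p ω ω' m σ + D / ω * (ω * σ ^ (ω - 1))) σ := by
    intro σ hσ
    exact (hD v p ω ω' m σ hσ).add
      ((Real.hasDerivAt_rpow_const (Or.inl hσ.ne')).const_mul (D / ω))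
  have hF : MonotoneOn (fun σ => Psi v p ω ω' m σ + D / ω * σ ^ ω) (Set.Icc σ1 σ0) := by
    apply monotoneOn_of_deriv_nonneg (convex_Icc σ1 σ0)
    · intro σ hσ
      exact (key σ (lt_of_lt_of_le h1 hσ.1)).continuousAt.continuousWithinAt
    · intro σ hσ
      rw [interior_Icc] at hσ
      exact (key σ (lt_trans h1 hσ.1)).differentiableAt.differentiableWithinAt
    · intro σ hσ
      rw [interior_Icc] at hσ
      rw [(key σ (lt_trans h1 hσ.1)).deriv]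
      have h := hd σ hσ.1.le hσ.2.le
      have h2 : D / ω * (ω * σ ^ (ω - 1)) = σ ^ (ω - 1) * D := by
        field_simp
      rw [h2]
      linarith
  have h := hF (Set.left_mem_Icc.2 h10) (Set.right_mem_Icc.2 h10) h10
  simp only at h
  have h3 : 0 ≤ D / ω * σ1 ^ ω := by positivity
  have h4 : D * σ0 ^ ω / ω = D / ω * σ0 ^ ω := by ring
  rw [h4]
  linarith

private theorem exists_m (σ1 : ℝ) (h1 : 0 < σ1) (n : ℕ) :
    ∃ m : ℕ, n ≤ m ∧ ((m : ℝ) + 1) ^ 4 * Real.exp (-(2 * (σ1 * m))) ≤ 1 := by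
  set r : ℝ := Real.exp (-(2 * σ1)) with hr
  have hr0 : 0 < r := Real.exp_pos _
  have hr1 : r < 1 := by
    rw [hr, Real.exp_lt_one_iff]
    linarith
  have ht := tendsto_pow_const_mul_const_pow_of_abs_lt_one 4
    (show |r| < 1 by rw [abs_of_pos hr0]; exact hr1)
  have he := (ht.eventually (Iic_mem_nhds hr0)).and (Filter.eventually_ge_atTop (n + 1))
  obtain ⟨N, hN1, hN2⟩ := he.exists
  refine ⟨N - 1, by omega, ?_⟩
  obtain ⟨m, rfl⟩ : ∃ m, N = m + 1 := ⟨N - 1, by omega⟩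
  have hN1' : (((m + 1 : ℕ) : ℝ)) ^ 4 * r ^ (m + 1) ≤ r := hN1
  have h3 : m + 1 - 1 = m := by omega
  rw [h3]
  have h4 : Real.exp (-(2 * (σ1 * m))) = r ^ m := by
    rw [hr, ← Real.exp_nat_mul]
    congr 1
    ring
  rw [h4]
  push_cast at hN1'
  rw [pow_succ r m, ← mul_assoc] at hN1'
  by_contra hcon
  push Not at hcon
  have := mul_lt_mul_of_pos_right hcon hr0
  linarith

private theorem upper (v : ℕ → ℝ) (A p ω ω' σ0 : ℝ)
    (hA : ∀ i : ℕ, v i ≤ A * ((i : ℝ) + 1) ^ 2) (hA0 : 0 ≤ A) (hp : p < 1) (hω' : 0 < ω')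
    (h0 : 0 < σ0) (m : ℕ) :
    Psi v p ω ω' m σ0 ≤ σ0 ^ ω * (A * ((2 * σ0 + ω') *
      ∑' k : ℕ, (((k + 1 : ℕ) : ℝ)) ^ 3 * Real.exp (-(2 * σ0)) ^ (k + 1))) := by
  set r : ℝ := Real.exp (-(2 * σ0)) with hr
  have hr0 : 0 < r := Real.exp_pos _
  have hr1 : r < 1 := by
    rw [hr, Real.exp_lt_one_iff]
    linarith
  have hs : Summable (fun k : ℕ => (((k + 1 : ℕ) : ℝ)) ^ 3 * r ^ (k + 1)) := by
    have h := summable_pow_mul_geometric_of_norm_lt_one (R := ℝ) 3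
      (show ‖r‖ < 1 by rw [Real.norm_eq_abs, abs_of_pos hr0]; exact hr1)
    exact (summable_nat_add_iff (f := fun k : ℕ => ((k : ℝ)) ^ 3 * r ^ k) 1).2 h
  have hle : ∑ k ∈ range m, (((k + 1 : ℕ) : ℝ)) ^ 3 * r ^ (k + 1) ≤
      ∑' k : ℕ, (((k + 1 : ℕ) : ℝ)) ^ 3 * r ^ (k + 1) :=
    hs.sum_le_tsum _ (fun k _ => by positivity)
  unfold Psi
  have hpos : 0 ≤ σ0 ^ ω := by positivity
  apply mul_le_mul_of_nonneg_left _ hpos
  refine le_trans ?_ (mul_le_mul_of_nonneg_left (mul_le_mul_of_nonneg_left hle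
    (by positivity : (0:ℝ) ≤ 2 * σ0 + ω')) hA0)
  rw [Finset.mul_sum, Finset.mul_sum]
  apply Finset.sum_le_sum
  intro i _
  have hi1 : (1 : ℝ) ≤ (i : ℝ) + 1 := by
    have : (0 : ℝ) ≤ i := Nat.cast_nonneg i
    linarith
  have hi0 : (0 : ℝ) < (i : ℝ) + 1 := by linarith
  have e1 : ((i : ℝ) + 1) ^ (2 * p - 2) ≤ 1 :=
    Real.rpow_le_one_of_one_le_of_nonpos hi1 (by linarith)
  have e1' : 0 ≤ ((i : ℝ) + 1) ^ (2 * p - 2) := by positivity
  have e2 : Real.exp (-(2 * (σ0 * ((i : ℝ) + 1)))) = r ^ (i + 1) := by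
    rw [hr, ← Real.exp_nat_mul]
    congr 1
    push_cast
    ring
  have e3 : 2 * (σ0 * ((i : ℝ) + 1)) + ω' ≤ (2 * σ0 + ω') * ((i : ℝ) + 1) := by nlinarith
  have e3' : 0 ≤ 2 * (σ0 * ((i : ℝ) + 1)) + ω' := by positivity
  rw [e2]
  have hrp : 0 ≤ r ^ (i + 1) := by positivity
  have g1 : ((i : ℝ) + 1) ^ (2 * p - 2) * (2 * (σ0 * ((i : ℝ) + 1)) + ω') ≤
      1 * ((2 * σ0 + ω') * ((i : ℝ) + 1)) := mul_le_mul e1 e3 e3' zero_le_one
  have g2 : ((i : ℝ) + 1) ^ (2 * p - 2) * (2 * (σ0 * ((i : ℝ) + 1)) + ω') * r ^ (i + 1) ≤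
      (1 * ((2 * σ0 + ω') * ((i : ℝ) + 1))) * r ^ (i + 1) := mul_le_mul_of_nonneg_right g1 hrp
  have g3 : 0 ≤ ((i : ℝ) + 1) ^ (2 * p - 2) * (2 * (σ0 * ((i : ℝ) + 1)) + ω') * r ^ (i + 1) := by
    positivity
  have g4 := mul_le_mul (hA i) g2 g3 (by positivity)
  refine g4.trans (le_of_eq ?_)
  push_cast
  ring

private theorem lower (v : ℕ → ℝ) (p ω ω' σ0 : ℝ) (hv : ∀ i, 0 ≤ v i) (hp : p < 1)
    (hω' : 0 < ω') (h0 : 0 < σ0) (n m : ℕ) (hn : 1 ≤ n) (hnm : n ≤ m) :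
    (σ0 / n) ^ ω * ((n : ℝ) ^ (2 * p - 2) * ω' * Real.exp (-(2 * σ0)) * ∑ i ∈ range n, v i) ≤
      Psi v p ω ω' m (σ0 / n) := by
  have hn0 : (0 : ℝ) < n := by exact_mod_cast hn
  have hs1 : 0 < σ0 / n := by positivity
  unfold Psi
  have hpos : 0 ≤ (σ0 / n) ^ ω := by positivity
  apply mul_le_mul_of_nonneg_left _ hpos
  refine le_trans ?_ (Finset.sum_le_sum_of_subset_of_nonneg (Finset.range_mono hnm) ?_)
  · rw [Finset.mul_sum]
    apply Finset.sum_le_sum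
    intro i hi
    have hi' : i + 1 ≤ n := Finset.mem_range.1 hi
    have hi2 : (i : ℝ) + 1 ≤ n := by exact_mod_cast hi'
    have hi0 : (0 : ℝ) < (i : ℝ) + 1 := by positivity
    have e1 : (n : ℝ) ^ (2 * p - 2) ≤ ((i : ℝ) + 1) ^ (2 * p - 2) :=
      Real.rpow_le_rpow_of_nonpos hi0 hi2 (by linarith)
    have e2 : ω' ≤ 2 * (σ0 / n * ((i : ℝ) + 1)) + ω' := by
      have : 0 ≤ 2 * (σ0 / n * ((i : ℝ) + 1)) := by positivity
      linarith
    have e3 : Real.exp (-(2 * σ0)) ≤ Real.exp (-(2 * (σ0 / n * ((i : ℝ) + 1)))) := by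
      apply Real.exp_le_exp.2
      have : σ0 / n * ((i : ℝ) + 1) ≤ σ0 := by
        rw [div_mul_eq_mul_div, div_le_iff₀ hn0]
        exact mul_le_mul_of_nonneg_left hi2 h0.le
      linarith
    have g1 : (n : ℝ) ^ (2 * p - 2) * ω' ≤
        ((i : ℝ) + 1) ^ (2 * p - 2) * (2 * (σ0 / n * ((i : ℝ) + 1)) + ω') :=
      mul_le_mul e1 e2 hω'.le (by positivity)
    have g2 := mul_le_mul g1 e3 (Real.exp_pos _).le (by positivity)
    rw [mul_comm]
    exact mul_le_mul_of_nonneg_left g2 (hv i)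
  · intro i _ _
    have := hv i
    positivity

theorem hGRZ : StGRZ := by
  intro hD c hc hLB hKK
  obtain ⟨σ0, B, h0, hB, hLB⟩ := hLB
  obtain ⟨K, hK, hKK⟩ := hKK
  obtain ⟨hp0, hp1⟩ := pp_bounds hc
  set p := pp c with hp
  have hω' : 0 < 1 - p := by linarith
  set K3 : ℝ := ∑' k : ℕ, (((k + 1 : ℕ) : ℝ)) ^ 3 * Real.exp (-(2 * σ0)) ^ (k + 1) with hK3
  have hK30 : 0 ≤ K3 := tsum_nonneg (fun k => by positivity)
  set C' : ℝ := σ0 ^ p * ((2 * σ0 + (1 - p)) * K3) + B * (K + 1) * σ0 ^ p / p with hC'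
  have hC'0 : 0 ≤ C' := by positivity
  refine ⟨C' * (σ0 ^ p * ((1 - p) * Real.exp (-(2 * σ0))))⁻¹, by positivity, ?_⟩
  intro v hv A hA n hn
  have hv0 := hv.1
  have hA0 : 0 ≤ A := by
    have h1 := hA 0
    have h2 := hv0 0
    simp at h1
    linarith
  have hn0 : (0 : ℝ) < n := by exact_mod_cast hn
  have hn1 : (1 : ℝ) ≤ n := by exact_mod_cast hn
  have hs1 : 0 < σ0 / n := by positivity
  have hs10 : σ0 / n ≤ σ0 := div_le_self h0.le hn1
  obtain ⟨m, hnm, hm⟩ := exists_m (σ0 / n) hs1 n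
  have hm1 : 1 ≤ m := le_trans hn hnm
  have hm1' : (1 : ℝ) ≤ m := by exact_mod_cast hm1
  have hVk : ∑ i ∈ range m, v i * ((i : ℝ) + 1) ^ (2 * p - 3) ≤ K * A := hKK v hv A hA m
  have herr : ∀ σ, σ0 / n ≤ σ → v m * (sh (gg p σ) m) ^ 2 ≤ A := by
    intro σ hσ
    have e1 : sh (gg p σ) m = (m : ℝ) ^ p * Real.exp (-(σ * m)) := by
      unfold sh gg
      rw [if_neg (by omega)]
      have : ((m - 1 : ℕ) : ℝ) + 1 = m := by
        rw [Nat.cast_sub hm1]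
        push_cast
        ring
      rw [this]
    have e2 : (m : ℝ) ^ p ≤ m := by
      calc (m : ℝ) ^ p ≤ (m : ℝ) ^ (1 : ℝ) := Real.rpow_le_rpow_of_exponent_le hm1' hp1.le
        _ = m := Real.rpow_one _
    have e3 : Real.exp (-(σ * m)) ≤ Real.exp (-(σ0 / n * m)) := by
      apply Real.exp_le_exp.2
      have := mul_le_mul_of_nonneg_right hσ (by positivity : (0:ℝ) ≤ m)
      linarith
    have e4 : sh (gg p σ) m ≤ m * Real.exp (-(σ0 / n * m)) := by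
      rw [e1]
      exact mul_le_mul e2 e3 (Real.exp_pos _).le (by positivity)
    have e5 : 0 ≤ sh (gg p σ) m := by
      rw [e1]
      positivity
    have e6 : (sh (gg p σ) m) ^ 2 ≤ (m : ℝ) ^ 2 * Real.exp (-(2 * (σ0 / n * m))) := by
      calc (sh (gg p σ) m) ^ 2 ≤ (m * Real.exp (-(σ0 / n * m))) ^ 2 :=
            pow_le_pow_left₀ e5 e4 2
        _ = (m : ℝ) ^ 2 * Real.exp (-(2 * (σ0 / n * m))) := by
            rw [mul_pow, ← Real.exp_nat_mul]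
            congr 2
            push_cast
            ring
    have e7 : v m * (sh (gg p σ) m) ^ 2 ≤
        (A * ((m : ℝ) + 1) ^ 2) * ((m : ℝ) ^ 2 * Real.exp (-(2 * (σ0 / n * m)))) :=
      mul_le_mul (hA m) e6 (by positivity) (by positivity)
    have e8 : (m : ℝ) ^ 2 ≤ ((m : ℝ) + 1) ^ 2 := pow_le_pow_left₀ (by positivity) (by linarith) 2
    calc v m * (sh (gg p σ) m) ^ 2
        ≤ (A * ((m : ℝ) + 1) ^ 2) * ((m : ℝ) ^ 2 * Real.exp (-(2 * (σ0 / n * m)))) := e7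
      _ ≤ (A * ((m : ℝ) + 1) ^ 2) * (((m : ℝ) + 1) ^ 2 * Real.exp (-(2 * (σ0 / n * m)))) := by
          apply mul_le_mul_of_nonneg_left _ (by positivity)
          exact mul_le_mul_of_nonneg_right e8 (Real.exp_pos _).le
      _ = A * (((m : ℝ) + 1) ^ 4 * Real.exp (-(2 * (σ0 / n * m)))) := by ring
      _ ≤ A * 1 := mul_le_mul_of_nonneg_left hm hA0
      _ = A := mul_one A
  have hstep := mono_step hD v p p (1 - p) (B * (K * A + A)) (σ0 / n) σ0 m hp0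
    (by positivity) hs1 hs10 (by
      intro σ hσ1 hσ0
      have hσ : 0 < σ := lt_of_lt_of_le hs1 hσ1
      refine le_trans ?_ (hLB v hv m σ hσ hσ0)
      apply neg_le_neg
      apply mul_le_mul_of_nonneg_left _ (by positivity)
      apply mul_le_mul_of_nonneg_left _ hB
      exact add_le_add hVk (herr σ hσ1))
  have hup := upper v A p p (1 - p) σ0 hA hA0 hp1 hω' h0 m
  have hlow := lower v p p (1 - p) σ0 hv0 hp1 hω' h0 n m hn hnm
  have hall : (σ0 / n) ^ p * ((n : ℝ) ^ (2 * p - 2) * (1 - p) * Real.exp (-(2 * σ0)) *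
      ∑ i ∈ range n, v i) ≤ C' * A := by
    refine hlow.trans (hstep.trans ?_)
    have : C' * A = σ0 ^ p * (A * ((2 * σ0 + (1 - p)) * K3)) +
        B * (K * A + A) * σ0 ^ p / p := by
      rw [hC']
      ring
    rw [this]
    exact add_le_add_left hup _
  have hdiv : (σ0 / n) ^ p = σ0 ^ p * (n : ℝ) ^ (-p) := by
    rw [Real.div_rpow h0.le hn0.le, Real.rpow_neg hn0.le]
    rfl
  have hnn : (n : ℝ) ^ (-p) * (n : ℝ) ^ (2 * p - 2) * (n : ℝ) ^ (2 - p) = 1 := by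
    rw [← Real.rpow_add hn0, ← Real.rpow_add hn0]
    rw [show -p + (2 * p - 2) + (2 - p) = 0 by ring]
    exact Real.rpow_zero _
  rw [hdiv] at hall
  have hX : 0 < σ0 ^ p * ((1 - p) * Real.exp (-(2 * σ0))) := by positivity
  have hN : 0 < (n : ℝ) ^ (2 - p) := by positivity
  have h5 := mul_le_mul_of_nonneg_right hall hN.le
  have h6 : σ0 ^ p * (n : ℝ) ^ (-p) * ((n : ℝ) ^ (2 * p - 2) * (1 - p) * Real.exp (-(2 * σ0)) *
      ∑ i ∈ range n, v i) * (n : ℝ) ^ (2 - p) =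
      (σ0 ^ p * ((1 - p) * Real.exp (-(2 * σ0)))) * ∑ i ∈ range n, v i := by
    calc _ = ((n : ℝ) ^ (-p) * (n : ℝ) ^ (2 * p - 2) * (n : ℝ) ^ (2 - p)) *
          ((σ0 ^ p * ((1 - p) * Real.exp (-(2 * σ0)))) * ∑ i ∈ range n, v i) := by ring
      _ = _ := by rw [hnn, one_mul]
  rw [h6] at h5
  have h7 : ∑ i ∈ range n, v i ≤
      (σ0 ^ p * ((1 - p) * Real.exp (-(2 * σ0))))⁻¹ * (C' * A * (n : ℝ) ^ (2 - p)) := by
    rw [← div_eq_inv_mul, le_div_iff₀ hX]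
    linarith
  refine h7.trans (le_of_eq ?_)
  ring

end Pool.Agent.Helper37.KE
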